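import Mathlib

set_option autoImplicit false

namespace Pool.Agent.Results.MP_0cba1e_an.DimOne

open Set

variable {A : Type} [TopologicalSpace A] [DiscreteTopology A] [Finite A]

def sh (v : ℤ) (x : ℤ → A) : ℤ → A := fun u => x (u + v)

def IsShift (X : Set (ℤ → A)) : Prop :=
  X.Nonempty ∧ IsClosed X ∧ ∀ v, ∀ x ∈ X, sh v x ∈ X

/-- configurations avoiding a finite set of patterns; a pattern is a finite window `D` with the
values of a function on it -/
def IsSFT (X : Set (ℤ → A)) : Prop :=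
  ∃ F : Set (Finset ℤ × (ℤ → A)), F.Finite ∧
    X = {x | ∀ p ∈ F, ∀ v, ¬ ∀ u ∈ p.1, x (u + v) = p.2 u}

def IsMax (Y X : Set (ℤ → A)) : Prop :=
  IsShift Y ∧ Y ⊂ X ∧ ¬ ∃ Z, IsShift Z ∧ Y ⊂ Z ∧ Z ⊂ X

def IsUniqueMax (Y X : Set (ℤ → A)) : Prop := IsMax Y X ∧ ∀ Z, IsMax Z X → Z = Y

def orb (x : ℤ → A) : Set (ℤ → A) := range fun v => sh v x

theorem sh_sh (v w : ℤ) (x : ℤ → A) : sh v (sh w x) = sh (v + w) x := by
  funext u; simp [sh, add_assoc]

theorem sh_cont (v : ℤ) : Continuous (sh (A := A) v) :=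
  continuous_pi fun u => continuous_apply (u + v)

theorem self_mem (x : ℤ → A) : x ∈ orb x := ⟨0, by funext u; simp [sh]⟩

theorem cl_shift (x : ℤ → A) : IsShift (closure (orb x)) := by
  refine ⟨⟨x, subset_closure (self_mem x)⟩, isClosed_closure, fun v y hy => ?_⟩
  refine map_mem_closure (sh_cont v) hy ?_
  rintro _ ⟨w, rfl⟩
  exact ⟨v + w, (sh_sh v w x).symm⟩

theorem cl_sub {X : Set (ℤ → A)} (hX : IsShift X) {x : ℤ → A} (hx : x ∈ X) :
    closure (orb x) ⊆ X :=
  closure_minimal (by rintro _ ⟨v, rfl⟩; exact hX.2.2 v x hx) hX.2.1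

theorem union_shift {X Y : Set (ℤ → A)} (hX : IsShift X) (hY : IsShift Y) : IsShift (X ∪ Y) :=
  ⟨hX.1.inl, hX.2.1.union hY.2.1, fun v x hx => hx.imp (hX.2.2 v x) (hY.2.2 v x)⟩

theorem step {X Y Z : Set (ℤ → A)} (hX : IsShift X) (h1 : IsUniqueMax Y X) (h2 : IsMax Z Y)
    {x : ℤ → A} (hx : x ∈ X) (hxY : x ∉ Y) {w : ℤ → A} (hw : w ∈ Y) (hwZ : w ∉ Z) :
    w ∈ closure (orb x) ∧ w ∉ orb x := by
  have hY := h1.1.1
  refine ⟨?_, ?_⟩
  · by_contra hc
    have hfull : Y ∪ closure (orb x) = X := by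
      by_contra hne
      refine h1.1.2.2 ⟨_, union_shift hY (cl_shift x), ⟨subset_union_left, fun h => hxY
        (h (Or.inr (subset_closure (self_mem x))))⟩,
        ssubset_of_subset_of_ne (union_subset h1.1.2.1.1 (cl_sub hX hx)) hne⟩
    have hmax : IsMax (Z ∪ closure (orb x)) X := by
      refine ⟨union_shift h2.1 (cl_shift x), ⟨union_subset (h2.2.1.1.trans h1.1.2.1.1)
        (cl_sub hX hx), fun h => (h (h1.1.2.1.1 hw)).elim hwZ hc⟩, ?_⟩
      rintro ⟨W, hW, hW1, hW2⟩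
      obtain ⟨u, hu1, hu2⟩ := exists_of_ssubset hW1
      have huY : u ∈ Y := by
        have : u ∈ Y ∪ closure (orb x) := hfull ▸ hW2.1 hu1
        exact this.resolve_right fun h => hu2 (Or.inr h)
      have hWY : IsShift (W ∩ Y) :=
        ⟨⟨u, hu1, huY⟩, hW.2.1.inter hY.2.1, fun v y hy => ⟨hW.2.2 v y hy.1, hY.2.2 v y hy.2⟩⟩
      refine h2.2.2 ⟨W ∩ Y, hWY, ⟨subset_inter (subset_union_left.trans hW1.1) h2.2.1.1,
        fun h => hu2 (Or.inl (h ⟨hu1, huY⟩))⟩, inter_subset_right, fun h => hW2.2 ?_⟩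
      rw [← hfull]
      exact union_subset (h.trans inter_subset_left) (subset_union_right.trans hW1.1)
    have := h1.2 _ hmax
    exact hxY (this ▸ Or.inr (subset_closure (self_mem x)))
  · rintro ⟨v, rfl⟩
    have := hY.2.2 (-v) _ hw
    rw [sh_sh] at this
    apply hxY
    convert this using 1
    funext u; simp [sh]

theorem right_per (L : ℕ) (x : ℤ → A) (N : ℤ) : ∃ (x' : ℤ → A) (P : ℕ) (M : ℤ), 0 < P ∧
    (∀ t ≤ N, x' t = x t) ∧ (∀ t ≥ M, x' (t + P) = x' t) ∧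
    ∀ s, ∃ s', ∀ r : ℕ, r < L → x' (s + r) = x (s' + r) := by
  obtain ⟨a, b, hab, he⟩ := Finite.exists_ne_map_eq_of_infinite
    (fun k : ℕ => fun r : Fin L => x (N + k + r))
  wlog hlt : a < b generalizing a b
  · exact this b a hab.symm he.symm (by omega)
  set i : ℤ := N + a with hi
  obtain ⟨P, rfl⟩ : ∃ P, b = a + P := ⟨b - a, by omega⟩
  have hP : 0 < P := by omega
  have hPz : (0 : ℤ) < P := by exact_mod_cast hP
  have hw : ∀ r : ℕ, r < L → x (i + P + r) = x (i + r) := by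
    intro r hr
    have := congrFun he ⟨r, hr⟩
    simp only at this
    rw [this]; congr 1; push_cast; ring
  let x' : ℤ → A := fun t => if t < i then x t else x (i + (t - i) % P)
  have hper : ∀ t ≥ i, x' (t + P) = x' t := by
    intro t ht
    simp only [x', if_neg (show ¬ t + P < i by omega), if_neg (show ¬ t < i by omega)]
    rw [show t + P - i = (t - i) + P by ring, Int.add_emod_right]
  have hag : ∀ n : ℕ, n < P + L → x' (i + n) = x (i + n) := by
    intro n
    induction n using Nat.strong_induction_on with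
    | _ n ih =>
      intro hn
      by_cases h : n < P
      · simp only [x', if_neg (show ¬ i + n < i by omega)]
        rw [add_sub_cancel_left, Int.emod_eq_of_lt (by omega) (by omega)]
      · obtain ⟨r, rfl⟩ : ∃ r, n = P + r := ⟨n - P, by omega⟩
        have h1 := hper (i + r) (by omega)
        have h2 := ih r (by omega) (by omega)
        have h3 := hw r (by omega)
        push_cast
        rw [show i + (P + r : ℤ) = i + r + P by ring, h1, h2, ← h3]
        congr 1; ring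
  have hlow : ∀ t < i + P + L, x' t = x t := by
    intro t ht
    by_cases h : t < i
    · simp only [x', if_pos h]
    · obtain ⟨n, rfl⟩ : ∃ n : ℕ, t = i + n := ⟨(t - i).toNat, by omega⟩
      exact hag n (by omega)
  refine ⟨x', P, i, hP, fun t ht => hlow t (by omega), hper, fun s => ?_⟩
  by_cases h : s < i
  · exact ⟨s, fun r hr => hlow _ (by omega)⟩
  · refine ⟨i + (s - i) % P, fun r hr => ?_⟩
    have b1 := Int.emod_nonneg (s - i) hPz.ne'
    have b2 := Int.emod_lt_of_pos (s - i) hPz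
    rw [← hlow _ (by omega)]
    simp only [x', if_neg (show ¬ s + r < i by omega),
      if_neg (show ¬ i + (s - i) % P + r < i by omega)]
    congr 2
    rw [show i + (s - i) % P + r - i = (s - i) % P + r by ring, Int.emod_add_emod]
    congr 1; ring

theorem per_mul {x : ℤ → A} {P : ℕ} {M : ℤ} (h : ∀ t ≥ M, x (t + P) = x t) (k : ℕ) :
    ∀ t ≥ M, x (t + (k * P : ℕ)) = x t := by
  induction k with
  | zero => simp
  | succ k ih =>
    intro t ht
    have := h (t + (k * P : ℕ)) (by omega)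
    rw [← ih t ht, ← this]; congr 1; push_cast; ring

theorem bi_per (L : ℕ) (x : ℤ → A) (N : ℕ) : ∃ (z : ℤ → A) (Q : ℕ) (M : ℤ), 0 < Q ∧
    (∀ t, -(N : ℤ) ≤ t → t ≤ N → z t = x t) ∧ (∀ t, z (t + Q) ≠ z t → -M ≤ t ∧ t ≤ M) ∧
    ∀ s, ∃ s', ∀ r : ℕ, r < L → z (s + r) = x (s' + r) := by
  obtain ⟨y, P, M, hP, a1, a2, a3⟩ := right_per L x N
  obtain ⟨y', P', M', hP', b1, b2, b3⟩ := right_per L (fun t => y (-t)) N
  refine ⟨fun t => y' (-t), P * P', |M| + |M'| + N + P * P', by positivity, fun t h1 h2 => ?_,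
    fun t ht => ?_, fun s => ?_⟩
  · simp only
    rw [b1 _ (by omega), neg_neg, a1 t h2]
  · have c1 := le_abs_self M
    have c2 := le_abs_self M'
    have c3 := abs_nonneg M
    have c4 := abs_nonneg M'
    have c5 : (0 : ℤ) ≤ (P : ℤ) * P' := by positivity
    by_contra hc
    apply ht
    simp only
    rcases not_and_or.1 hc with h | h
    · have := per_mul b2 P (-(t + (P * P' : ℕ))) (by push_cast; omega)
      rw [← this]; congr 1; ring
    · rw [b1 _ (by push_cast; omega), b1 _ (by omega), neg_neg, neg_neg, mul_comm]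
      exact per_mul a2 P' t (by omega)
  · obtain ⟨s', hs⟩ := b3 (-s - L + 1)
    obtain ⟨s'', hs'⟩ := a3 (-s' - L + 1)
    refine ⟨s'', fun r hr => ?_⟩
    have := hs (L - 1 - r) (by omega)
    simp only at this ⊢
    rw [← hs' r hr]
    have e : ((L - 1 - r : ℕ) : ℤ) = L - 1 - r := by omega
    rw [e] at this
    convert this using 2 <;> ring

theorem per_of_cl {z w : ℤ → A} {Q : ℕ} {M : ℤ} (h : ∀ t, z (t + Q) ≠ z t → -M ≤ t ∧ t ≤ M)
    (hw : w ∈ closure (orb z)) (hn : w ∉ orb z) (t : ℤ) : w (t + Q) = w t := by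
  by_contra hne
  have ho : IsOpen {y : ℤ → A | y (t + Q) ≠ y t} :=
    (isClosed_eq (continuous_apply (t + (Q : ℤ))) (continuous_apply t) :
      IsClosed {y : ℤ → A | y (t + Q) = y t}).isOpen_compl
  have h1 := ho.inter_closure ⟨hne, hw⟩
  have hf : ((fun v => sh v z) '' Icc (-M - t) (M - t)).Finite := (finite_Icc _ _).image _
  have h2 : {y : ℤ → A | y (t + Q) ≠ y t} ∩ orb z ⊆ (fun v => sh v z) '' Icc (-M - t) (M - t) := by
    rintro _ ⟨hy, v, rfl⟩
    have := h (t + v) (by simpa [sh, add_right_comm] using hy)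
    exact ⟨v, ⟨by omega, by omega⟩, rfl⟩
  obtain ⟨v, -, hv⟩ := closure_minimal h2 hf.isClosed h1
  exact hn ⟨v, hv⟩

theorem result (A : Type) [TopologicalSpace A] [DiscreteTopology A] [Finite A]
    (X₀ X₁ X₂ X₃ : Set (ℤ → A)) (h0 : IsShift X₀) (hF : IsSFT X₀) (h1 : IsUniqueMax X₁ X₀)
    (h2 : IsUniqueMax X₂ X₁) : ¬ IsMax X₃ X₂ := by
  intro h3
  obtain ⟨x, hx, hx1⟩ := exists_of_ssubset h1.1.2.1
  obtain ⟨w, hw, hw2⟩ := exists_of_ssubset h2.1.2.1
  obtain ⟨u, hu, hu3⟩ := exists_of_ssubset h3.2.1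
  obtain ⟨F, hFf, hX⟩ := hF
  obtain ⟨I, t, ht, hsub⟩ := isOpen_pi_iff.1 h1.1.1.2.1.isOpen_compl x hx1
  obtain ⟨N, hN⟩ : ∃ N : ℕ, ∀ i ∈ I, i.natAbs ≤ N :=
    ⟨I.sup Int.natAbs, fun i hi => Finset.le_sup (f := Int.natAbs) hi⟩
  obtain ⟨m, hm⟩ : ∃ m : ℕ, ∀ p ∈ F, ∀ i ∈ p.1, i.natAbs ≤ m := by
    obtain ⟨m, hm⟩ := (hFf.image fun p => p.1.sup Int.natAbs).bddAbove
    exact ⟨m, fun p hp i hi => (Finset.le_sup (f := Int.natAbs) hi).trans (hm ⟨p, hp, rfl⟩)⟩
  obtain ⟨z, Q, M, hQ, a1, a2, a3⟩ := bi_per (2 * m + 1) x N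
  have hz1 : z ∉ X₁ := hsub fun i hi => by
    have := hN i hi
    rw [a1 i (by omega) (by omega)]; exact (ht i hi).2
  have hz : z ∈ X₀ := by
    rw [hX] at hx ⊢
    intro p hp v hv
    obtain ⟨s', hs⟩ := a3 (v - m)
    refine hx p hp (s' + m) fun i hi => ?_
    have b1 := hm p hp i hi
    have := hs (i + m).toNat (by omega)
    rw [← hv i hi]
    have e : (((i + m).toNat : ℕ) : ℤ) = i + m := by omega
    rw [e] at this
    convert this.symm using 2 <;> ring
  obtain ⟨c1, c2⟩ := step h0 h1 h2.1 hz hz1 hw hw2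
  have hp := per_of_cl a2 c1 c2
  obtain ⟨d1, d2⟩ := step h1.1.1 h2 h3 hw hw2 hu hu3
  have hQz : (0 : ℤ) < Q := by exact_mod_cast hQ
  have hper : Function.Periodic w (Q : ℤ) := hp
  have hfin : (orb w).Finite := by
    refine ((finite_Ico (0 : ℤ) Q).image fun v => sh v w).subset ?_
    rintro _ ⟨v, rfl⟩
    refine ⟨v % Q, ⟨Int.emod_nonneg _ hQz.ne', Int.emod_lt_of_pos _ hQz⟩, ?_⟩
    funext s
    simp only [sh]
    have := hper.int_mul (v / Q) (s + v % Q)
    rw [← this]; congr 1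
    have := Int.emod_add_mul_ediv v Q
    push_cast
    linarith
  exact d2 (hfin.isClosed.closure_subset d1)

end Pool.Agent.Results.MP_0cba1e_an.DimOne
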